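import Pool.Agent.H523.AH.Stm3

set_option autoImplicit false
set_option linter.unusedSectionVars false

namespace Pool.Agent.H273.AH.M4

open Polynomial Finset
open Pool.Agent.H341R2.Sharp (Mon mem_Mon)
open Pool.Agent.H523.FF (two_le_card)
open Pool.Agent.H523.CM Pool.Agent.H523.AH
open Pool.Agent.Q284 Pool.Agent.Q284.WE

open scoped Classical

theorem key_le (M j : ℕ) (Y : ℕ → ℕ → ℝ) (h0 : ∀ a b, 0 ≤ Y a b)
    (h1 : ∀ a b, a + b ≠ j → Y a b = 0) :
    ∑ a ∈ Ico 1 M, ∑ b ∈ Ico 1 M, Y a b ≤ ∑ a ∈ Ico 1 j, Y a (j - a) := by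
  have h2 : ∀ a ∈ Ico 1 M, ∑ b ∈ Ico 1 M, Y a b ≤ if a < j then Y a (j - a) else 0 := by
    intro a ha
    by_cases haj : a < j
    · rw [if_pos haj]
      have h3 : ∑ b ∈ Ico 1 M, Y a b = ∑ b ∈ Ico 1 M, if b = j - a then Y a (j - a) else 0 := by
        refine sum_congr rfl (fun b _ => ?_)
        by_cases hb : b = j - a
        · rw [if_pos hb, hb]
        · rw [if_neg hb, h1 a b (by omega)]
      rw [h3, sum_ite_eq']
      split_ifs
      · exact le_rfl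
      · exact h0 _ _
    · rw [if_neg haj]
      refine le_of_eq (sum_eq_zero (fun b hb => h1 a b ?_))
      have := (mem_Ico.mp hb).1
      omega
  refine (sum_le_sum h2).trans ?_
  rw [← sum_filter]
  refine sum_le_sum_of_subset_of_nonneg ?_ (fun _ _ _ => h0 _ _)
  intro a ha
  rw [mem_filter, mem_Ico] at ha
  rw [mem_Ico]
  omega

variable {F : Type} [Field F] [Fintype F]

/-- the coefficients of the square -/
noncomputable def cc (M : ℕ) (β : ℕ → ℂ) (n : F[X]) : ℂ :=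
  ∑ a ∈ Ico 1 M, ∑ b ∈ Ico 1 M, ∑ f ∈ Mon F a, ∑ g ∈ Mon F b,
    if f * g = n then β a * β b * ((lam a f * lam b g : ℝ) : ℂ) else 0

theorem mul_Mon {a b : ℕ} {f g : F[X]} (hf : f ∈ Mon F a) (hg : g ∈ Mon F b) :
    f * g ∈ Mon F (a + b) := by
  rw [mem_Mon] at hf hg ⊢
  exact ⟨hf.1.mul hg.1, by rw [hf.1.natDegree_mul hg.1, hf.2, hg.2]⟩

/-- the degrees `< 2 M - 1` -/
noncomputable def TT (F : Type) [Field F] [Fintype F] (M : ℕ) : Finset F[X] :=
  (range (2 * M - 1)).biUnion (fun j => Mon F j)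

theorem sq_eq {Q : F[X]} (M : ℕ) (β : ℕ → ℂ) (χ : MulChar (AdjoinRoot Q) ℂ) :
    (∑ a ∈ Ico 1 M, β a * ∑ f ∈ Mon F a, (lam a f : ℂ) * χ (AdjoinRoot.mk Q f)) ^ 2 =
      ∑ n ∈ TT F M, cc M β n * χ (AdjoinRoot.mk Q n) := by
  have h1 : ∑ n ∈ TT F M, cc M β n * χ (AdjoinRoot.mk Q n) =
      ∑ a ∈ Ico 1 M, ∑ b ∈ Ico 1 M, ∑ f ∈ Mon F a, ∑ g ∈ Mon F b,
        β a * β b * ((lam a f * lam b g : ℝ) : ℂ) * χ (AdjoinRoot.mk Q (f * g)) := by
    unfold cc
    simp only [sum_mul]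
    rw [sum_comm]
    refine sum_congr rfl (fun a ha => ?_)
    rw [sum_comm]
    refine sum_congr rfl (fun b hb => ?_)
    rw [sum_comm]
    refine sum_congr rfl (fun f hf => ?_)
    rw [sum_comm]
    refine sum_congr rfl (fun g hg => ?_)
    rw [sum_eq_single_of_mem (f * g)]
    · rw [if_pos rfl]
    · unfold TT
      rw [mem_biUnion]
      refine ⟨a + b, ?_, mul_Mon hf hg⟩
      rw [mem_range]
      rw [mem_Ico] at ha hb
      omega
    · intro n _ hn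
      rw [if_neg (Ne.symm hn), zero_mul]
  rw [h1, pow_two, sum_mul_sum]
  refine sum_congr rfl (fun a _ => sum_congr rfl (fun b _ => ?_))
  have h2 : β a * (∑ f ∈ Mon F a, (lam a f : ℂ) * χ (AdjoinRoot.mk Q f)) *
      (β b * ∑ g ∈ Mon F b, (lam b g : ℂ) * χ (AdjoinRoot.mk Q g)) =
      β a * β b * ((∑ f ∈ Mon F a, (lam a f : ℂ) * χ (AdjoinRoot.mk Q f)) *
        ∑ g ∈ Mon F b, (lam b g : ℂ) * χ (AdjoinRoot.mk Q g)) := by ring
  rw [h2, sum_mul_sum, mul_sum]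
  refine sum_congr rfl (fun f _ => ?_)
  rw [mul_sum]
  refine sum_congr rfl (fun g _ => ?_)
  rw [map_mul, map_mul]
  push_cast
  ring

theorem norm_cc (M j : ℕ) (β : ℕ → ℂ) (x : ℝ) (hx : 0 ≤ x) (hβ : ∀ a, ‖β a‖ ≤ x ^ a)
    {n : F[X]} (hn : n ∈ Mon F j) : ‖cc M β n‖ ≤ x ^ j * LL j n := by
  have h1 : ‖cc M β n‖ ≤ ∑ a ∈ Ico 1 M, ∑ b ∈ Ico 1 M, ∑ f ∈ Mon F a, ∑ g ∈ Mon F b,
      if f * g = n then x ^ j * (lam a f * lam b g) else 0 := by
    unfold cc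
    refine (norm_sum_le _ _).trans (sum_le_sum (fun a _ => ?_))
    refine (norm_sum_le _ _).trans (sum_le_sum (fun b _ => ?_))
    refine (norm_sum_le _ _).trans (sum_le_sum (fun f hf => ?_))
    refine (norm_sum_le _ _).trans (sum_le_sum (fun g hg => ?_))
    split_ifs with h
    · have h3 : a + b = j := by
        have h4 := (mem_Mon.mp (mul_Mon hf hg)).2
        rw [h, (mem_Mon.mp hn).2] at h4
        exact h4.symm
      have h5 : 0 ≤ lam a f * lam b g := mul_nonneg (lam_nonneg _ _) (lam_nonneg _ _)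
      rw [norm_mul, norm_mul, Complex.norm_real, Real.norm_eq_abs, abs_of_nonneg h5, ← h3, pow_add]
      refine mul_le_mul_of_nonneg_right ?_ h5
      exact mul_le_mul (hβ a) (hβ b) (norm_nonneg _) (pow_nonneg hx _)
    · rw [norm_zero]
  refine h1.trans ?_
  refine (key_le M j (fun a b => ∑ f ∈ Mon F a, ∑ g ∈ Mon F b,
      if f * g = n then x ^ j * (lam a f * lam b g) else 0) ?_ ?_).trans (le_of_eq ?_)
  · intro a b
    refine sum_nonneg (fun f _ => sum_nonneg (fun g _ => ?_))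
    split_ifs
    · exact mul_nonneg (pow_nonneg hx _) (mul_nonneg (lam_nonneg _ _) (lam_nonneg _ _))
    · exact le_rfl
  · intro a b hab
    refine sum_eq_zero (fun f hf => sum_eq_zero (fun g hg => ?_))
    rw [if_neg]
    intro h
    apply hab
    have h4 := (mem_Mon.mp (mul_Mon hf hg)).2
    rw [h, (mem_Mon.mp hn).2] at h4
    exact h4.symm
  · unfold LL
    rw [mul_sum]
    refine sum_congr rfl (fun a _ => ?_)
    rw [mul_sum]
    refine sum_congr rfl (fun f _ => ?_)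
    rw [mul_sum]
    refine sum_congr rfl (fun g _ => ?_)
    split_ifs
    · rfl
    · rw [mul_zero]

theorem sum_cc {C : ℝ} (hC : 0 ≤ C)
    (hN : ∀ j : ℕ, ∑ n ∈ Mon F j, (LL j n) ^ 2 ≤ C * (j:ℝ) ^ 3 * (Fintype.card F : ℝ) ^ j)
    (M : ℕ) (hM : 1 ≤ M) (β : ℕ → ℂ) (hβ : ∀ a, ‖β a‖ ≤ ((√(Fintype.card F : ℝ))⁻¹) ^ a) :
    ∑ n ∈ TT F M, ‖cc M β n‖ ^ 2 ≤ C * 16 * (M:ℝ) ^ 4 := by
  have hq := two_le_card (F := F)
  have hs := one_lt_sqrt (F := F)
  set q : ℝ := (Fintype.card F : ℝ) with hqd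
  set s := √q with hsd
  have hs0 : 0 < s := by linarith
  have hs2 : s ^ 2 = q := Real.sq_sqrt (by linarith)
  have hq0 : 0 < q := by linarith
  unfold TT
  rw [sum_biUnion]
  · have h1 : ∀ j ∈ range (2 * M - 1), ∑ n ∈ Mon F j, ‖cc M β n‖ ^ 2 ≤ C * (8 * (M:ℝ) ^ 3) := by
      intro j hj
      rw [mem_range] at hj
      have h2 : ∀ n ∈ Mon F j, ‖cc M β n‖ ^ 2 ≤ (q ^ j)⁻¹ * (LL j n) ^ 2 := by
        intro n hn
        have h3 := norm_cc M j β s⁻¹ (by positivity) hβ hn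
        have h4 := pow_le_pow_left₀ (norm_nonneg _) h3 2
        refine h4.trans (le_of_eq ?_)
        rw [mul_pow, ← hs2, ← pow_mul, ← pow_mul, inv_pow, mul_comm j 2]
      refine (sum_le_sum h2).trans ?_
      rw [← mul_sum]
      have h5 := mul_le_mul_of_nonneg_left (hN j) (by positivity : (0:ℝ) ≤ (q ^ j)⁻¹)
      refine h5.trans ?_
      have h6 : (q ^ j)⁻¹ * (C * (j:ℝ) ^ 3 * q ^ j) = C * (j:ℝ) ^ 3 := by
        field_simp
      rw [h6]
      refine mul_le_mul_of_nonneg_left ?_ hC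
      have h7 : (j:ℝ) ≤ 2 * M := by
        have : j ≤ 2 * M := by omega
        exact_mod_cast this
      have h8 := pow_le_pow_left₀ (Nat.cast_nonneg j) h7 3
      refine h8.trans (le_of_eq ?_)
      ring
    refine (sum_le_sum h1).trans ?_
    rw [sum_const, card_range, nsmul_eq_mul]
    have h9 : ((2 * M - 1 : ℕ) : ℝ) ≤ 2 * M := by
      have : 2 * M - 1 ≤ 2 * M := by omega
      exact_mod_cast this
    have h10 : (0:ℝ) ≤ C * (8 * (M:ℝ) ^ 3) := by positivity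
    refine (mul_le_mul_of_nonneg_right h9 h10).trans (le_of_eq ?_)
    ring
  · intro a _ b _ hab
    rw [Function.onFun, disjoint_left]
    intro n h1 h2
    apply hab
    rw [← (mem_Mon.mp h1).2, ← (mem_Mon.mp h2).2]

theorem main (hN : S_N4) (hP : S_P4) : S_M4 := by
  obtain ⟨C, hC, hN⟩ := hN
  refine ⟨8 * (C * 16 + 81), by positivity, ?_⟩
  intro F _ _ Q _ hQ hirr hd M hM b hb
  have hq := two_le_card (F := F)
  have hs := one_lt_sqrt (F := F)

  set q : ℝ := (Fintype.card F : ℝ) with hqd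
  set s := √q with hsd
  have hs0 : 0 < s := by linarith
  have hs2 : s ^ 2 = q := Real.sq_sqrt (by linarith)
  have hq0 : 0 < q := by linarith
  rcases Nat.eq_zero_or_pos M with h0 | hM1
  · subst h0
    simp
  have hM1' : (1:ℝ) ≤ M := by exact_mod_cast hM1
  set β : ℕ → ℂ := fun a => b a * ((s⁻¹ ^ a : ℝ) : ℂ) with hβd
  have hβ : ∀ a, ‖β a‖ ≤ s⁻¹ ^ a := by
    intro a
    rw [hβd]
    simp only
    rw [norm_mul, Complex.norm_real, Real.norm_eq_abs, abs_of_pos (by positivity)]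
    have := mul_le_mul_of_nonneg_right (hb a) (by positivity : (0:ℝ) ≤ s⁻¹ ^ a)
    linarith
  set D : MulChar (AdjoinRoot Q) ℂ → ℂ := fun χ =>
    ∑ a ∈ Ico 1 M, β a * ∑ f ∈ Mon F a, (lam a f : ℂ) * χ (AdjoinRoot.mk Q f) with hDd
  have hgeo : ∑ k ∈ Ico 1 M, s⁻¹ ^ k ≤ 3 := by
    have h1 : s⁻¹ < 1 := inv_lt_one_of_one_lt₀ hs
    have h2 := geom_sum_Ico_le_of_lt_one (m := 1) (n := M) (by positivity : (0:ℝ) ≤ s⁻¹) h1
    refine h2.trans ?_
    rw [pow_one, div_le_iff₀ (by linarith)]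
    have h3 : 4 / 3 ≤ s := by
      rw [hsd]
      apply Real.le_sqrt_of_sq_le
      norm_num
      linarith
    have h4 : s⁻¹ ≤ 3 / 4 := by
      rw [inv_le_comm₀ hs0 (by norm_num)]
      linarith
    linarith
  have hS : ∀ χ ∈ (univ : Finset (MulChar (AdjoinRoot Q) ℂ)).erase 1,
      ‖∑ k ∈ Ico 1 M, b k * pw χ k‖ ^ 4 ≤ 8 * (‖D χ ^ 2‖ ^ 2 + 81) := by
    intro χ hχ
    have hχ1 := (mem_erase.mp hχ).1
    have h1 : ‖∑ k ∈ Ico 1 M, b k * pw χ k + D χ‖ ≤ 3 := by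
      refine le_trans ?_ hgeo
      rw [hDd]
      simp only
      rw [← sum_add_distrib]
      refine (norm_sum_le _ _).trans (sum_le_sum (fun k hk => ?_))
      have hk1 := (mem_Ico.mp hk).1
      obtain ⟨e, he0, he1, heq⟩ := pw_eq hQ hirr hd hχ1 hk1
      rw [← trc_lam hk1, heq, hβd]
      simp only
      have h2 : b k * -(((s⁻¹ ^ k : ℝ) : ℂ) * (trc (cq Q χ) k + e)) +
          b k * ((s⁻¹ ^ k : ℝ) : ℂ) * trc (cq Q χ) k = -(b k * ((s⁻¹ ^ k : ℝ) : ℂ) * e) := by ring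
      rw [h2, norm_neg, norm_mul, Complex.norm_real, Real.norm_eq_abs, abs_of_nonneg he0]
      have h3 := hβ k
      rw [hβd] at h3
      simp only at h3
      calc ‖b k * ((s⁻¹ ^ k : ℝ) : ℂ)‖ * e ≤ s⁻¹ ^ k * 1 :=
            mul_le_mul h3 he1 he0 (by positivity)
        _ = s⁻¹ ^ k := mul_one _
    have h4 : ‖∑ k ∈ Ico 1 M, b k * pw χ k‖ ≤ ‖D χ‖ + 3 := by
      have h5 := norm_sub_le (∑ k ∈ Ico 1 M, b k * pw χ k + D χ) (D χ)
      rw [add_sub_cancel_right] at h5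
      linarith
    have h6 := pow_le_pow_left₀ (norm_nonneg _) h4 4
    refine h6.trans ?_
    rw [norm_pow]
    have hn := norm_nonneg (D χ)
    set y := ‖D χ‖
    nlinarith [sq_nonneg (y - 3), sq_nonneg (y + 3), sq_nonneg (y ^ 2 - 9), mul_nonneg hn (sq_nonneg (y - 3)), sq_nonneg ((y - 3) * (y + 3)), sq_nonneg ((y-3)^2), mul_nonneg hn hn]
  refine (sum_le_sum hS).trans ?_
  rw [← mul_sum, sum_add_distrib, sum_const, nsmul_eq_mul]
  have hcard : ((((univ : Finset (MulChar (AdjoinRoot Q) ℂ)).erase 1).card : ℝ)) ≤ q ^ Q.natDegree := by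
    rw [card_nonpr hQ hirr]
    linarith
  have htot : (tot Q : ℝ) ≤ q ^ Q.natDegree := by
    rw [tot_eq_card hQ, card_units hQ hirr]
    linarith
  have hD : ∑ χ ∈ (univ : Finset (MulChar (AdjoinRoot Q) ℂ)).erase 1, ‖D χ ^ 2‖ ^ 2 ≤
      q ^ Q.natDegree * (C * 16 * (M:ℝ) ^ 4) := by
    refine (sum_le_sum_of_subset_of_nonneg (erase_subset _ _)
      (fun _ _ _ => by positivity)).trans ?_
    have h1 := hP F Q hQ (TT F M) (cc M β) (by
      intro f hf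
      unfold TT at hf
      rw [mem_biUnion] at hf
      obtain ⟨j, hj, hf⟩ := hf
      rw [mem_range] at hj
      rw [(mem_Mon.mp hf).2]
      omega)
    have h2 : ∀ χ : MulChar (AdjoinRoot Q) ℂ, ‖D χ ^ 2‖ ^ 2 =
        ‖∑ f ∈ TT F M, cc M β f * χ (AdjoinRoot.mk Q f)‖ ^ 2 := by
      intro χ
      rw [← sq_eq]
    rw [sum_congr rfl (fun χ _ => h2 χ)]
    refine h1.trans ?_
    have h3 := sum_cc hC (hN F) M hM1 β hβ
    exact mul_le_mul htot h3 (sum_nonneg (fun _ _ => by positivity)) (by positivity)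
  have hM4 : (1:ℝ) ≤ (M:ℝ) ^ 4 := one_le_pow₀ hM1'
  have hqd0 : (0:ℝ) ≤ q ^ Q.natDegree := by positivity
  have h5 : q ^ Q.natDegree * 1 ≤ q ^ Q.natDegree * (M:ℝ) ^ 4 := mul_le_mul_of_nonneg_left hM4 hqd0
  nlinarith

end Pool.Agent.H273.AH.M4
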